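import Pool.Agent.Work.MP_1a5986_lc.WO.Expl
import Pool.Agent.Work.MP_1a5986_lc.WO.DeepM

open Pool.Agent.Work.MP_1a5986_lc Pool.Agent.Work.MP_1a5986_lc.WO Pool.Agent.Work.PolyTime

/-- Integer sequences at distance at least `18` from the boundary of the set of expected score
sequences are score sequences, and they are recognised in polynomial time. -/
theorem Pool.Agent.Results.MP_1a5986_lc.ExactInside.result :
    (∀ (n : ℕ) (s : Fin n → ℤ), Deep 3 18 (fun i => (s i : ℝ)) →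
      ∃ T : Tournament (Fin n), ∀ i, (T.score 3 i : ℤ) = s i) ∧
    (∀ (n κ : ℕ) (s : Fin n → ℝ), Deep 3 κ s ↔
      (∀ S : Finset (Fin n), ∑ i ∈ S, (s i + κ)
        ≤ 3 * ((S.card : ℝ) * (S.card - 1) / 2 + S.card * (n - S.card))) ∧
      ∀ z : Fin n → ℕ, (∀ i, z i = 0 ∨ ∃ k < n, z i = 2 ^ k) →
        ∑ i, (z i : ℝ) * ((n : ℝ) - 1 + κ)
          ≤ ∑ i, (z i : ℝ) * s i + ∑ i, ∑ j, max 0 ((z j : ℝ) - 2 * z i)) ∧
    (∀ κ, InP (deepLang 3 κ)) ∧ deepLang 3 18 ⊆ scoreLang 3 ∧ scoreLang 3 ⊆ deepLang 3 0 := by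
  refine ⟨fun n s h => deep_main s h, fun n κ s => ?_, fun κ => deepLang_inP 3 κ le_rfl, ?_,
    score_mem 3⟩
  · have h := deep_expl 3 κ le_rfl s
    norm_num at h
    norm_num
    exact h
  · rintro w ⟨s, rfl, hs⟩
    obtain ⟨T, hT⟩ := deep_main (fun i : Fin s.length => ((s.get i : ℕ) : ℤ)) (by
      have e : (fun i : Fin s.length => (((s.get i : ℕ) : ℤ) : ℝ))
          = fun i => ((s.get i : ℕ) : ℝ) := by
        funext i
        push_cast
        rfl
      rw [e]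
      exact hs)
    exact ⟨s, rfl, T, fun i => by exact_mod_cast hT i⟩
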