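import Pool.Agent.Work.MP_1a5986_lc.Few.Main

open Pool.Agent.Work.MP_1a5986_lc Pool.Agent.Work.MP_1a5986_lc.Few

/-- Score sequences with `k` distinct scores: a linear system in `4 k ^ 2` unknowns for each
choice of `2 k` parameters, all of them at most `n ^ 2`. -/
theorem Pool.Agent.Results.MP_1a5986_lc.FewDistinctScores.result (p n k : ℕ) (hp : 2 ≤ p)
    (c : Fin n → Fin k) (v : Fin k → ℕ) :
    ((∃ T : Tournament (Fin n), ∀ i, T.score p i = v (c i)) ↔
      ∃ (W q : Fin k → Fin (n ^ 2 + 1)) (a : Fin k × Bool → Fin k × Bool → Fin (n ^ 2 + 1)),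
        Feasible p n (fun u => (Finset.univ.filter fun i => c i = u).card) v
          (fun u => W u) (fun u => q u) (fun s t => a s t)) ∧
    Fintype.card ((Fin k → Fin (n ^ 2 + 1)) × (Fin k → Fin (n ^ 2 + 1)) ×
      (Fin k × Bool → Fin k × Bool → Fin (n ^ 2 + 1))) = (n ^ 2 + 1) ^ (4 * k ^ 2 + 2 * k) := by
  obtain ⟨b, rfl⟩ : ∃ b, p = b + 1 := ⟨p - 1, by omega⟩
  refine ⟨⟨fun h => ?_, ?_⟩, ?_⟩
  · obtain ⟨W, q, a, hW, hq, ha, hf⟩ := few_fwd b (by omega) c v h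
    exact ⟨fun u => ⟨W u, Nat.lt_succ_of_le (hW u)⟩, fun u => ⟨q u, Nat.lt_succ_of_le (hq u)⟩,
      fun s t => ⟨a s t, Nat.lt_succ_of_le (ha s t)⟩, hf⟩
  · rintro ⟨W, q, a, hf⟩
    exact few_back b c v _ _ _ hf
  · simp only [Fintype.card_prod, Fintype.card_pi, Fintype.card_fin, Finset.prod_const,
      Finset.card_univ, Fintype.card_bool]
    rw [← pow_mul, ← pow_add, ← pow_add]
    congr 1
    ring
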