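import Pool.Agent.Work.MP_1a5986_lc.Final

open Pool.Agent.Work.MP_1a5986_lc

/-- Exact cover by sets of size three reduces to the league table problem and to the problem
of soccer scores with a large number of points for a win. -/
theorem Pool.Agent.Results.MP_1a5986_lc.WinsAndPointsHard.result {U V : ℕ}
    (S : Fin V → Fin 3 → Fin U) (hS : ∀ v, Function.Injective (S v)) (hUV : U ≤ 3 * V) :
    Fintype.card (Cup U V) = 12 * V + 12 * U * V + 12 * U + 1 ∧
    ∀ a p : ℕ, 3 ≤ a → Fintype.card (Cup U V) ≤ a →
      [HasExactCover S,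
        ∃ T : Tournament (Cup U V), ∀ i,
          T.score 3 i = 3 * cupW S i + cupD S i ∧ T.wins i = cupW S i,
        ∃ T : Tournament (Cup U V ⊕ Fin p), ∀ i,
          T.score a i = padScore a (fun i => a * cupW S i + cupD S i) p i].TFAE := by
  refine ⟨card_cup U V, fun a p ha hn => ?_⟩
  obtain ⟨h1, h2⟩ := main S hS hUV
  tfae_have 1 ↔ 2 := by
    rw [h1]
    exact exists_congr fun T => forall_congr' fun i => and_comm
  tfae_have 1 ↔ 3 := h2 a p ha hn
  tfae_finish
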