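import Pool.Agent.Work.MP_1a5986_lc.WO.Expl

open Pool.Agent.Work.MP_1a5986_lc Pool.Agent.Work.MP_1a5986_lc.WO Pool.Agent.Work.PolyTime

/-- Expected score sequences (win `a ≥ 3` points): they are recognised in polynomial time by
explicit inequalities, contain all score sequences, and every integer one is within `a - 2` points
per team (one point for soccer) of a score sequence. -/
theorem Pool.Agent.Results.MP_1a5986_lc.WithinOnePoint.result (a : ℕ) (ha : 3 ≤ a) :
    InP (expLang a) ∧ scoreLang a ⊆ expLang a ∧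
    (∀ l : List ℕ, enc l ∈ expLang a →
      ∃ T : Tournament (Fin l.length), ∀ i, |(T.score a i : ℤ) - l.get i| ≤ a - 2) ∧
    ∀ (n : ℕ) (s : Fin n → ℝ), Expected ⊤ a s ↔
      (∀ S : Finset (Fin n), ∑ i ∈ S, s i
        ≤ (a : ℝ) * ((S.card : ℝ) * (S.card - 1) / 2 + S.card * (n - S.card))) ∧
      ∀ z : Fin n → ℕ, (∀ i, z i = 0 ∨ ∃ k < n, z i = (a - 1) ^ k) →
        ∑ i, (z i : ℝ) * ((n : ℝ) - 1)
          ≤ ∑ i, (z i : ℝ) * s i + ∑ i, ∑ j, max 0 ((z j : ℝ) - ((a : ℝ) - 1) * z i) := by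
  refine ⟨?_, ?_, ?_, fun n s => ?_⟩
  · rw [expLang_eq]
    exact deepLang_inP a 0 ha
  · rw [expLang_eq]
    exact score_mem a
  · rw [expLang_eq]
    exact mem_near a ha
  · have h := deep_expl a 0 ha s
    simp only [Nat.cast_zero, add_zero] at h
    rw [expected_iff_deep, h]
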